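import Pool.Agent.Q78.BB.Stm
import Pool.Agent.Q182.BA.Num

/-! # Project BB of helper78: job K7, a numerical inequality for all `N ≥ 10` -/

set_option autoImplicit false

namespace Pool.Agent.Q79.BB

open Pool.Agent.Q78.BB Pool.Agent.Q276.BA

/-- the first root, with `s = √(N + 1/2)` -/
theorem part1 {x s : ℝ} (hx : 10 ≤ x) (hs0 : 0 ≤ s) (hs : s ^ 2 = x + 1 / 2) :
    Real.sqrt (4 * Real.pi * Real.sqrt ((1.3 * (x ^ 2 + x) ^ (3 / 4 : ℝ) + x / 4) *
      (x * (x + 1) * Real.sqrt (2 * x + 1)))) ≤ 4.19 * s ^ 2 := by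
  have hs324 : 3.24 ≤ s := by
    apply le_of_pow_le_pow_left₀ (n := 2) (by norm_num) hs0
    rw [hs]
    norm_num
    linarith
  have h1 : (x ^ 2 + x) ^ (3 / 4 : ℝ) ≤ s ^ 3 := by
    have h2 : x ^ 2 + x ≤ s ^ 4 := by
      have : s ^ 4 = (s ^ 2) ^ 2 := by ring
      rw [this, hs]
      nlinarith
    have h3 : (s ^ 4) ^ (3 / 4 : ℝ) = s ^ 3 := by
      rw [← Real.rpow_natCast s 4, ← Real.rpow_mul hs0, ← Real.rpow_natCast s 3]
      congr 1
      norm_num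
    rw [← h3]
    exact Real.rpow_le_rpow (by positivity) h2 (by norm_num)
  have h2 : 1.3 * (x ^ 2 + x) ^ (3 / 4 : ℝ) + x / 4 ≤ 1.3772 * s ^ 3 := by
    have h3 : x ≤ s ^ 2 := by rw [hs]; linarith
    have h4 : s ^ 2 * 3.24 ≤ s ^ 2 * s := mul_le_mul_of_nonneg_left hs324 (by positivity)
    have h5 : s ^ 3 = s ^ 2 * s := by ring
    linarith
  have h3 : Real.sqrt (2 * x + 1) ≤ 1.41422 * s := by
    rw [Real.sqrt_le_left (by positivity), mul_pow, hs]
    linarith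
  have h4 : x * (x + 1) ≤ s ^ 4 := by
    have : s ^ 4 = (s ^ 2) ^ 2 := by ring
    rw [this, hs]
    nlinarith
  have h5 : x * (x + 1) * Real.sqrt (2 * x + 1) ≤ s ^ 4 * (1.41422 * s) :=
    mul_le_mul h4 h3 (Real.sqrt_nonneg _) (by positivity)
  have h6 : (1.3 * (x ^ 2 + x) ^ (3 / 4 : ℝ) + x / 4) * (x * (x + 1) * Real.sqrt (2 * x + 1)) ≤
      1.3772 * s ^ 3 * (s ^ 4 * (1.41422 * s)) :=
    mul_le_mul h2 h5 (by positivity) (by positivity)
  have h7 : Real.sqrt ((1.3 * (x ^ 2 + x) ^ (3 / 4 : ℝ) + x / 4) * (x * (x + 1) * Real.sqrt (2 * x + 1))) ≤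
      1.3957 * s ^ 4 := by
    rw [Real.sqrt_le_left (by positivity)]
    refine h6.trans ?_
    have h8 : 1.3772 * s ^ 3 * (s ^ 4 * (1.41422 * s)) = (1.3772 * 1.41422) * s ^ 8 := by ring
    have h9 : (1.3957 * s ^ 4) ^ 2 = 1.3957 ^ 2 * s ^ 8 := by ring
    rw [h8, h9]
    exact mul_le_mul_of_nonneg_right (by norm_num) (by positivity)
  rw [Real.sqrt_le_left (by positivity)]
  have hpi : 4 * Real.pi ≤ 4 * 3.1416 := by
    have := Real.pi_lt_d4
    linarith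
  have h8 : 4 * Real.pi * Real.sqrt ((1.3 * (x ^ 2 + x) ^ (3 / 4 : ℝ) + x / 4) *
      (x * (x + 1) * Real.sqrt (2 * x + 1))) ≤ 4 * 3.1416 * (1.3957 * s ^ 4) :=
    mul_le_mul hpi h7 (Real.sqrt_nonneg _) (by norm_num)
  refine h8.trans ?_
  have h9 : (4.19 * s ^ 2) ^ 2 = 4.19 ^ 2 * s ^ 4 := by ring
  have h10 : 4 * 3.1416 * (1.3957 * s ^ 4) = (4 * 3.1416 * 1.3957) * s ^ 4 := by ring
  rw [h9, h10]
  exact mul_le_mul_of_nonneg_right (by norm_num) (by positivity)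

theorem log21 : Real.log 21 ≤ 3.1 := by
  rw [Real.log_le_iff_le_exp (by norm_num)]
  have h1 : (2.7182818283 : ℝ) ^ 31 ≤ Real.exp 1 ^ 31 :=
    pow_le_pow_left₀ (by norm_num) Real.exp_one_gt_d9.le 31
  have h2 : Real.exp 1 ^ 31 = Real.exp 3.1 ^ 10 := by
    rw [← Real.exp_nat_mul, ← Real.exp_nat_mul]
    congr 1
    norm_num
  rw [h2] at h1
  apply le_of_pow_le_pow_left₀ (n := 10) (by norm_num) (Real.exp_pos _).le
  refine le_trans ?_ h1
  norm_num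

/-- the second root -/
theorem part2 {x : ℝ} (hx : 10 ≤ x) :
    2 * Real.sqrt (x * (1 + Real.log (2 * x + 1))) ≤ 1.56 * (x + 1 / 2) - 1 := by
  have h1 : Real.log (2 * x + 1) ≤ 3.1 + ((2 * x + 1) / 21 - 1) := by
    have h2 : Real.log (2 * x + 1) = Real.log 21 + Real.log ((2 * x + 1) / 21) := by
      rw [← Real.log_mul (by norm_num) (by positivity)]
      congr 1
      field_simp
    have h3 := Real.log_le_sub_one_of_pos (x := (2 * x + 1) / 21) (by positivity)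
    have := log21
    linarith
  have h2 : Real.sqrt (x * (1 + Real.log (2 * x + 1))) ≤ (1.56 * (x + 1 / 2) - 1) / 2 := by
    rw [Real.sqrt_le_left (by linarith)]
    have h3 : x * (1 + Real.log (2 * x + 1)) ≤ x * (1 + (3.1 + ((2 * x + 1) / 21 - 1))) :=
      mul_le_mul_of_nonneg_left (by linarith) (by linarith)
    refine h3.trans ?_
    nlinarith
  linarith

theorem k7 : S_K7 := by
  intro N hN
  have hx : (10 : ℝ) ≤ N := by exact_mod_cast hN
  obtain ⟨s, hs⟩ : ∃ s : ℝ, s = Real.sqrt ((N : ℝ) + 1 / 2) := ⟨_, rfl⟩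
  have hs0 : 0 ≤ s := by rw [hs]; exact Real.sqrt_nonneg _
  have hs2 : s ^ 2 = (N : ℝ) + 1 / 2 := by rw [hs, Real.sq_sqrt (by positivity)]
  have h1 := part1 hx hs0 hs2
  have h2 := part2 hx
  have h3 : 2.876 * (2 * (N : ℝ) + 1) ≤ eO N := by
    obtain ⟨m, rfl⟩ : ∃ m, N = m + 2 := ⟨N - 2, by omega⟩
    have h4 := Pool.Agent.Q182.BA.eO_ge m
    push_cast
    exact h4
  rw [hs2] at h1
  linarith

end Pool.Agent.Q79.BB
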